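import Pool.Agent.Q267.E8.Stm

set_option autoImplicit false

/-!
Project E8, job EE: the two character sums agree up to sign.
-/

namespace Pool.Agent.Q94.E8

open Finset Pool.Agent.Q267.CDE Pool.Agent.Q267.MW Pool.Agent.Q267.E8

theorem three_ne (p : ℕ) [Fact p.Prime] (h3 : p ≠ 3) : (3 : ZMod p) ≠ 0 := by
  intro h
  have h1 : ((3 : ℕ) : ZMod p) = 0 := by exact_mod_cast h
  rw [ZMod.natCast_eq_zero_iff] at h1
  exact h3 ((Nat.prime_dvd_prime_iff_eq Fact.out Nat.prime_three).1 h1)

theorem bij (p : ℕ) [Fact p.Prime] (h3 : p ≠ 3) :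
    Function.Bijective (fun s : ZMod p => -(3 * s + 2)) := by
  have h := three_ne p h3
  constructor
  · intro a b hab
    have h1 : -(3 * a + 2) = -(3 * b + 2) := hab
    have h2 : 3 * a = 3 * b := by linear_combination -h1
    exact mul_left_cancel₀ h h2
  · intro x
    refine ⟨-(x + 2) / 3, ?_⟩
    show -(3 * (-(x + 2) / 3) + 2) = x
    field_simp
    ring

/-- EE: the two character sums agree up to sign -/
theorem ee : S_EE := by
  intro p _ h2 h3
  have h := three_ne p h3
  have key : ∑ x : ZMod p, quadraticChar (ZMod p) (x ^ 3 - 30 * x + 56) =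
      quadraticChar (ZMod p) (-27) *
        ∑ s : ZMod p, quadraticChar (ZMod p) ((s + 2) * (s ^ 2 - 2)) := by
    rw [Finset.mul_sum]
    refine (Fintype.sum_bijective (fun s : ZMod p => -(3 * s + 2)) (bij p h3) _ _ fun s => ?_).symm
    rw [← map_mul]
    refine congrArg _ ?_
    ring
  have h27 : (-27 : ZMod p) ≠ 0 := by
    have : (-27 : ZMod p) = -(3 ^ 3) := by norm_num
    rw [this]
    exact neg_ne_zero.2 (pow_ne_zero 3 h)
  rcases quadraticChar_dichotomy h27 with h1 | h1
  · left
    rw [key, h1, one_mul]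
  · right
    rw [key, h1]
    ring

end Pool.Agent.Q94.E8
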